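import Pool.Agent.T6.H93.BS.Comp

/-!
Systems of equations in one variable over the one-relator groups isomorphic to a Baumslag-Solitar
group `BS(1,n)`, `|n| ≥ 2`, are decidable.
-/

set_option autoImplicit false

namespace Pool.Agent.Results.MP_1ebeae_al.OneVariableBS

/-- the one-relator group `⟨x_1, …, x_d | r⟩` -/
abbrev OneRelator {d : ℕ} (r : FreeGroup (Fin d)) : Type :=
  PresentedGroup ({r} : Set (FreeGroup (Fin d)))

/-- the relator `t a t⁻¹ a⁻ⁿ` of `BS(1,n)`, where `a` is generator `0` and `t` is generator `1` -/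
def bsRelator (n : ℤ) : FreeGroup (Fin 2) :=
  FreeGroup.of 1 * FreeGroup.of 0 * (FreeGroup.of 1)⁻¹ * (FreeGroup.of 0 ^ n)⁻¹

/-- the value `w(g)` of the word `w` over the alphabet `x_1^{±1}, …, x_d^{±1}, x^{±1}`: the letter
`(inl i, true)` is `x_i`, `(inl i, false)` is `x_i⁻¹`, `(inr (), true)` is the variable `x` and
`(inr (), false)` is `x⁻¹` -/
def value {d : ℕ} (r : FreeGroup (Fin d)) (g : OneRelator r)
    (w : List ((Fin d ⊕ Unit) × Bool)) : OneRelator r :=
  FreeGroup.lift (Sum.elim (fun i => PresentedGroup.of i) (fun _ => g)) (FreeGroup.mk w)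

/-- For `|n| ≥ 2`, and for every one-relator group `G = ⟨x_1, …, x_d | r⟩` which is isomorphic to
`BS(1,n) = ⟨a, t | t a t⁻¹ = aⁿ⟩`, it is decidable whether a finite system of equations in one
variable with constants from `G` has a solution in `G`; in particular this is so for single
equations. -/
theorem result (n : ℤ) (hn : 2 ≤ |n|) (d : ℕ) (r : FreeGroup (Fin d))
    (e : Nonempty (OneRelator r ≃* OneRelator (bsRelator n))) :
    ComputablePred (fun S : List (List ((Fin d ⊕ Unit) × Bool)) =>
      ∃ g : OneRelator r, ∀ w ∈ S, value r g w = 1) ∧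
    ComputablePred (fun w : List ((Fin d ⊕ Unit) × Bool) =>
      ∃ g : OneRelator r, value r g w = 1) := by
  obtain ⟨e⟩ := e
  haveI : Pool.Agent.H747BS.Hyp n := ⟨hn⟩
  have h1 : PrimrecPred (fun S : List (List ((Fin d ⊕ Unit) × Bool)) =>
      ∃ g : OneRelator r, ∀ w ∈ S, value r g w = 1) :=
    Pool.Agent.T6.H93.BS.comp_main n (fun i => PresentedGroup.of i) e
  have h2 : Primrec (fun w : List ((Fin d ⊕ Unit) × Bool) => [w]) :=
    Primrec.list_cons.comp Primrec.id (Primrec.const [])
  have h3 : PrimrecPred (fun w : List ((Fin d ⊕ Unit) × Bool) =>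
      ∃ g : OneRelator r, value r g w = 1) :=
    (h1.comp h2).of_eq fun w => by simp
  exact ⟨h1.computablePred, h3.computablePred⟩

end Pool.Agent.Results.MP_1ebeae_al.OneVariableBS
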